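import Pool.Agent.Run7.h489.LV.Fin

set_option autoImplicit false

/-!
# Almost all integral points of the complement of two lines and a curve lie on finitely many curves

Let `K` be a number field and let `f ∈ K[u][y]` be monic in `y` of degree `n ≥ 2` and not of the
form `(y - g(u)) ^ n`. We consider the surface `U = {u f(u, y) ≠ 0}` in the affine plane, with its
fibration over the multiplicative group by the curves `A¹ \ {f(u, ·) = 0}`. If the total degree of
`f` is `n`, then `U` is the complement in the projective plane of two lines and a curve of degree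
`n` (not through the common point of the lines), for example of two lines and a conic.
-/

namespace Pool.Agent.Results.MP_26d9ad_nt.AlmostAllIntegralPoints

open Polynomial LaurentPolynomial NumberField IsDedekindDomain Height

/-- The `S`-integral points `(u, y)` of `U`: the numbers `u` and `f(u, y)` are `S`-units. Here `S`
consists of the archimedean places and the given primes. -/
def integralPoints {K : Type} [Field K] [NumberField K] (S : Finset (HeightOneSpectrum (𝓞 K)))
    (f : K[X][X]) : Set (Kˣ × K) :=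
  {p | p.1 ∈ (S : Set (HeightOneSpectrum (𝓞 K))).unit K ∧
    ∃ v ∈ (S : Set (HeightOneSpectrum (𝓞 K))).unit K, (v : K) = evalEval (p.1 : K) p.2 f}

/-- `c = (a, b)` is a nonconstant morphism `τ ↦ (a(τ), b(τ))` over `K` from the multiplicative group
to `U`: the Laurent polynomials `a` and `f(a, b)` are units. -/
def IsCurve {K : Type} [Field K] (f : K[X][X]) (c : K[T;T⁻¹] × K[T;T⁻¹]) : Prop :=
  IsUnit c.1 ∧ IsUnit (aevalAeval c.1 c.2 f) ∧
    ¬ ∃ a b : K, c = (LaurentPolynomial.C a, LaurentPolynomial.C b)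

/-- The point `(u, y)` lies on the image of `c`, over the algebraic closure. -/
def OnCurve {K : Type} [Field K] (c : K[T;T⁻¹] × K[T;T⁻¹]) (u y : K) : Prop :=
  ∃ τ : (AlgebraicClosure K)ˣ,
    LaurentPolynomial.eval₂ (algebraMap K (AlgebraicClosure K)) τ c.1 =
      algebraMap K (AlgebraicClosure K) u ∧
    LaurentPolynomial.eval₂ (algebraMap K (AlgebraicClosure K)) τ c.2 =
      algebraMap K (AlgebraicClosure K) y

/-- Let `S` have at least two places. There are finitely many nonconstant morphisms from `G_m` to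
`U` such that, for every `ε > 0`, the integral points `(u, y)` outside their images
(1) satisfy `|log |u|_v| ≤ ε h(u) + C` for some place `v ∈ S`,
(2) have density zero: at most `ε #{u ∈ O_S^* : h(u) ≤ T}` of them satisfy `h(u) ≤ T`, for all
large `T`. -/
theorem result (K : Type) [Field K] [NumberField K] (S : Finset (HeightOneSpectrum (𝓞 K)))
    (hS : 2 ≤ Fintype.card (InfinitePlace K) + S.card) (f : K[X][X]) (n : ℕ) (hn : 2 ≤ n)
    (hf : f.Monic) (hdeg : f.natDegree = n) (hpow : ∀ g : K[X], f ≠ (X - Polynomial.C g) ^ n) :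
    ∃ E : Finset (K[T;T⁻¹] × K[T;T⁻¹]), (∀ c ∈ E, IsCurve f c) ∧
      ∀ ε : ℝ, 0 < ε → ∃ C T₀ : ℝ,
        (∀ p ∈ integralPoints S f, (∀ c ∈ E, ¬ OnCurve c (p.1 : K) p.2) →
          (∃ v : InfinitePlace K,
            |Real.log (v (p.1 : K))| ≤ ε * logHeight₁ (p.1 : K) + C) ∨
          ∃ v ∈ S, |Real.log (FinitePlace.mk v (p.1 : K))| ≤ ε * logHeight₁ (p.1 : K) + C) ∧
        ∀ T : ℝ, T₀ ≤ T →
          {p : Kˣ × K | p ∈ integralPoints S f ∧ logHeight₁ (p.1 : K) ≤ T ∧
            ∀ c ∈ E, ¬ OnCurve c (p.1 : K) p.2}.Finite ∧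
          (({p : Kˣ × K | p ∈ integralPoints S f ∧ logHeight₁ (p.1 : K) ≤ T ∧
            ∀ c ∈ E, ¬ OnCurve c (p.1 : K) p.2}.ncard : ℕ) : ℝ) ≤
            ε * (({u : Kˣ | u ∈ (S : Set (HeightOneSpectrum (𝓞 K))).unit K ∧
              logHeight₁ (u : K) ≤ T}.ncard : ℕ) : ℝ) := by
  classical
  have hcard : (Pool.Agent.R404.TC.Sp S).card = Fintype.card (InfinitePlace K) + S.card := by
    show (Finset.disjSum _ _).card = _
    rw [Finset.card_disjSum, Finset.card_univ]
  obtain ⟨E, hE, hwalls, hoff⟩ := Pool.Agent.Run7.h489.LV.walls S (by rw [hcard]; exact hS) hf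
    (by rw [hdeg]; exact hn) (by rw [hdeg]; exact hpow)
  set E' : Finset (K[T;T⁻¹] × K[T;T⁻¹]) := E.image fun d => ((d.1 : K[T;T⁻¹]), d.2) with hE'
  have hoffE : ∀ u y : K, (∀ c ∈ E', ¬ OnCurve c u y) → Pool.Agent.Run7.h489.LV.Off E u y := by
    intro u y h d hd τ hτ
    exact h _ (Finset.mem_image_of_mem _ hd) ⟨τ, hτ⟩
  have hunit : ∀ u : Kˣ, u ∈ (S : Set (HeightOneSpectrum (𝓞 K))).unit K ↔
      Pool.Agent.Run7.h489.LV.IsU S (u : K) := fun u =>
    (Pool.Agent.Run7.h489.LV.isU_iff u).symm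
  have hint : ∀ p ∈ integralPoints S f, Pool.Agent.Run7.h489.LV.IsU S (p.1 : K) ∧
      Pool.Agent.Run7.h489.LV.IsU S (evalEval (p.1 : K) p.2 f) := by
    rintro p ⟨h1, v, hv, hv'⟩
    exact ⟨(hunit _).1 h1, hv' ▸ (hunit _).1 hv⟩
  refine ⟨E', ?_, fun ε hε => ?_⟩
  · intro c hc
    obtain ⟨d, hd, rfl⟩ := Finset.mem_image.1 hc
    refine ⟨d.1.isUnit, (hE d hd).1, ?_⟩
    rintro ⟨a, b, hab⟩
    exact (hE d hd).2 ⟨a, b, congrArg Prod.fst hab, congrArg Prod.snd hab⟩
  · obtain ⟨C, hC⟩ := hwalls ε hε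
    obtain ⟨T₀, hT₀⟩ := Pool.Agent.Run7.h489.LV.count_gen S (by rw [hcard]; exact hS) hf
      (by rw [hdeg]; omega) (Pool.Agent.Run7.h489.LV.Off E) hwalls hoff hε
    refine ⟨C, T₀, ?_, fun T hT => ?_⟩
    · intro p hp hoffp
      obtain ⟨v, hv, h⟩ := hC (p.1 : K) p.2 (hint p hp).1 (hint p hp).2 (hoffE _ _ hoffp)
      rcases v with v | v
      · exact Or.inl ⟨v, h⟩
      · exact Or.inr ⟨v, Pool.Agent.Run7.h489.LV.mem_Sp_inr.1 hv, h⟩
    · obtain ⟨h1, h2⟩ := hT₀ T hT
      set A : Set (Kˣ × K) := {p : Kˣ × K | p ∈ integralPoints S f ∧ logHeight₁ (p.1 : K) ≤ T ∧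
            ∀ c ∈ E', ¬ OnCurve c (p.1 : K) p.2} with hA
      set B : Set (K × K) := {p : K × K | Pool.Agent.Run7.h489.LV.IsU S p.1 ∧
        Pool.Agent.Run7.h489.LV.IsU S (evalEval p.1 p.2 f) ∧
        logHeight₁ p.1 ≤ T ∧ Pool.Agent.Run7.h489.LV.Off E p.1 p.2} with hB
      let φ : Kˣ × K → K × K := fun p => ((p.1 : K), p.2)
      have hφ : Function.Injective φ := by
        rintro ⟨a, b⟩ ⟨a', b'⟩ h
        have e1 : (a : K) = a' := congrArg Prod.fst h
        have e2 : b = b' := congrArg Prod.snd h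
        rw [Units.ext e1, e2]
      have hAB : Set.MapsTo φ A B := by
        rintro p ⟨h3, h4, h5⟩
        exact ⟨(hint p h3).1, (hint p h3).2, h4, hoffE _ _ h5⟩
      have hAfin : A.Finite := Set.Finite.of_injOn hAB hφ.injOn h1
      refine ⟨hAfin, ?_⟩
      have h3 : A.ncard ≤ B.ncard := Set.ncard_le_ncard_of_injOn φ hAB hφ.injOn h1
      have h4 : (Pool.Agent.Run7.h489.LV.Un S T).ncard =
          {u : Kˣ | u ∈ (S : Set (HeightOneSpectrum (𝓞 K))).unit K ∧
            logHeight₁ (u : K) ≤ T}.ncard := by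
        rw [← Set.ncard_image_of_injective _ (Units.val_injective (α := K))]
        congr 1
        ext u
        constructor
        · rintro ⟨h5, h6⟩
          exact ⟨Units.mk0 u h5.1, ⟨(hunit _).2 h5, h6⟩, rfl⟩
        · rintro ⟨u, ⟨h5, h6⟩, rfl⟩
          exact ⟨(hunit _).1 h5, h6⟩
      rw [← h4]
      refine le_trans ?_ h2
      exact_mod_cast h3

end Pool.Agent.Results.MP_26d9ad_nt.AlmostAllIntegralPoints
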