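import Mathlib
import Pool.Agent.Run7.h983.D4

/-!
# The conjecture of Lang and Vojta for affine varieties whose function field is generated by units

Let `V` be an affine variety over `ℂ`, closed in the affine space `𝔸^N`. The points of `V` over a
finitely generated subring `R` of `ℂ` (`Subring.closure s`, `s` finite) are the points of `V` with
coordinates in `R`. Every arithmetic scheme has an open subscheme `Spec R` with `R` isomorphic to such
a ring, and a section is determined by its restriction to it, so that these are the rings which
matter for the conjecture, for affine schemes `U`.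

1. Let `V` be irreducible, of logarithmic general type, and let its function field be generated by
   invertible regular functions on `V`. Then there is a proper closed subset `Z` of `V`, which does
   not depend on `R`, such that `V(R)` has only finitely many points outside `Z`, for every finitely
   generated subring `R` of `ℂ`.
2. If all irreducible closed subsets of `V` of positive dimension are of logarithmic general type,
   and have a function field generated by invertible regular functions on the subset, then `V(R)` is
   finite for every finitely generated subring `R` of `ℂ`.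
3. The same is true if all irreducible closed subsets of `V` of positive dimension are of
   logarithmic general type, and if there are invertible regular functions `U_1, …, U_n` on `V` such
   that the line through any two points of `V` with the same values of the `U_i` lies in `V`. For
   example, `V` can be any closed subset of `𝔾_m^n × 𝔸^m` given by equations of degree at most one in
   the coordinates of `𝔸^m`.
4. For an irreducible `V` with function field generated by invertible regular functions, there is a
   proper closed subset `Z` as in (1) if and only if the images of all nonconstant maps from `𝔾_m` to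
   `V` lie in a proper closed subset of `V`.

The proof: relations between the units are treated by specialisations of finitely generated domains
to number fields which are injective on the units (and by Mordell–Lang for tori); then the points
are parametrised by multiplicatively independent units, and a denominator of a coordinate in this
parametrisation, specialised to a number field, is almost invertible at the points. By the theorem on
greatest common divisors and the subspace theorem it is homogeneous for a one-parameter subgroup,
and this gives a curve, the image of `𝔾_m`, through some of the points. For (1), maps from `𝔾_m`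
of large degree are excluded off a proper closed subset by the height inequality over function
fields.
-/

set_option autoImplicit false

namespace Pool.Agent.Results.MP_26d9ad_nt.GeneratedByUnits

open MvPolynomial
open Pool.Agent.H159R3.Exp (Laur)
open Pool.Agent.N754.FV (LogGT)

/-- The function field of the variety `V(p)` is generated by regular functions `U i` which are
invertible, with inverses `W i`: every coordinate is a rational function of these. -/
def FunctionFieldGeneratedByUnits {N : ℕ} (p : Ideal (MvPolynomial (Fin N) ℂ)) : Prop :=
  ∃ (n : ℕ) (U W : Fin n → MvPolynomial (Fin N) ℂ) (a b : Fin N → MvPolynomial (Fin n) ℂ),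
    (∀ i, U i * W i - 1 ∈ p) ∧
    ∀ j, aeval U (b j) ∉ p ∧ X j * aeval U (b j) - aeval U (a j) ∈ p

/-- The points of `V(I)` over the ring generated by the set `s`. -/
def Points {N : ℕ} (I : Ideal (MvPolynomial (Fin N) ℂ)) (s : Set ℂ) : Set (Fin N → ℂ) :=
  {x | (∀ j, x j ∈ Subring.closure s) ∧ ∀ Q ∈ I, eval x Q = 0}

/-- Over every finitely generated subring of `ℂ` there are only finitely many points of `V(I)` with
`H ≠ 0`. -/
def FinitelyManyOutside {N : ℕ} (I : Ideal (MvPolynomial (Fin N) ℂ))
    (H : MvPolynomial (Fin N) ℂ) : Prop :=
  ∀ s : Set ℂ, s.Finite → {x ∈ Points I s | eval x H ≠ 0}.Finite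

/-- All nonconstant curves in `V(I)` which are the image of the punctured line under a map `v` given
by Laurent polynomials satisfy `H = 0`. -/
def GmCurvesIn {N : ℕ} (I : Ideal (MvPolynomial (Fin N) ℂ)) (H : MvPolynomial (Fin N) ℂ) : Prop :=
  ∀ v : ℂ → Fin N → ℂ, (∀ j, Laur fun t => v t j) → (∀ Q ∈ I, ∀ t, t ≠ 0 → eval (v t) Q = 0) →
    (∃ t s, t ≠ 0 ∧ s ≠ 0 ∧ v t ≠ v s) → ∀ t, t ≠ 0 → eval (v t) H = 0

theorem outside_iff {N : ℕ} (p : Ideal (MvPolynomial (Fin N) ℂ)) (H : MvPolynomial (Fin N) ℂ) :
    FinitelyManyOutside p H ↔
      ∀ s : Set ℂ, s.Finite → (Pool.Agent.Run7.h983.ptsOff p H s).Finite := by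
  have h : ∀ s : Set ℂ, {x ∈ Points p s | eval x H ≠ 0} = Pool.Agent.Run7.h983.ptsOff p H s := by
    intro s
    ext x
    constructor
    · rintro ⟨⟨h1, h2⟩, h3⟩
      exact ⟨h1, h2, h3⟩
    · rintro ⟨h1, h2, h3⟩
      exact ⟨⟨h1, h2⟩, h3⟩
  constructor
  · intro h1 s hs
    rw [← h s]
    exact h1 s hs
  · intro h1 s hs
    rw [h s]
    exact h1 s hs

theorem result :
    -- (1) the conjecture in its non-density form
    (∀ (N : ℕ) (p : Ideal (MvPolynomial (Fin N) ℂ)), p.IsPrime →
      FunctionFieldGeneratedByUnits p → LogGT p → ∃ H, H ∉ p ∧ FinitelyManyOutside p H) ∧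
    -- (2) finiteness, if the function fields of the subvarieties are generated by units
    (∀ (N : ℕ) (I : Ideal (MvPolynomial (Fin N) ℂ)),
      (∀ p : Ideal (MvPolynomial (Fin N) ℂ), p.IsPrime → I ≤ p → ¬ p.IsMaximal →
        FunctionFieldGeneratedByUnits p ∧ LogGT p) →
      ∀ s : Set ℂ, s.Finite → (Points I s).Finite) ∧
    -- (3) finiteness, if points which are not separated by units are on a line in `V`
    (∀ (N n : ℕ) (I : Ideal (MvPolynomial (Fin N) ℂ)) (U W : Fin n → MvPolynomial (Fin N) ℂ),
      (∀ i, U i * W i - 1 ∈ I) →
      (∀ x y : Fin N → ℂ, (∀ Q ∈ I, eval x Q = 0) → (∀ Q ∈ I, eval y Q = 0) →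
        (∀ i, eval x (U i) = eval y (U i)) → x ≠ y →
          ∀ t : ℂ, ∀ Q ∈ I, eval (fun j => x j + t * (y j - x j)) Q = 0) →
      (∀ p : Ideal (MvPolynomial (Fin N) ℂ), p.IsPrime → I ≤ p → ¬ p.IsMaximal → LogGT p) →
      ∀ s : Set ℂ, s.Finite → (Points I s).Finite) ∧
    -- (4) the exceptional set
    (∀ (N : ℕ) (p : Ideal (MvPolynomial (Fin N) ℂ)), p.IsPrime →
      FunctionFieldGeneratedByUnits p →
      ((∃ H, H ∉ p ∧ FinitelyManyOutside p H) ↔ ∃ H, H ∉ p ∧ GmCurvesIn p H)) := by
  refine ⟨fun N p hp hu hL => ?_, fun N I h s hs => ?_, fun N n I U W hUW hsep h s hs => ?_,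
    fun N p hp hu => ?_⟩
  · obtain ⟨H, h1, h2⟩ := Pool.Agent.Run7.h983.pts_of_logGT p hp hu hL
    exact ⟨H, h1, (outside_iff p H).2 h2⟩
  · exact Pool.Agent.Run7.h983.pts_noeth I h s hs
  · exact Pool.Agent.Run7.h983.pts_sep I U W hUW hsep h s hs
  · have h1 := Pool.Agent.Run7.h983.pts_iff_curves p hp hu
    constructor
    · rintro ⟨H, h2, h3⟩
      exact h1.1 ⟨H, h2, (outside_iff p H).1 h3⟩
    · intro h2
      obtain ⟨H, h3, h4⟩ := h1.2 h2
      exact ⟨H, h3, (outside_iff p H).2 h4⟩

end Pool.Agent.Results.MP_26d9ad_nt.GeneratedByUnits
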