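import Pool.Agent.Run7.h621.LI.Final
import Pool.Agent.Y741.UnitNF

/-!
MP_26d9ad_nt, Q1: the conjecture of Lang and Vojta for special pairs in an arbitrary projective
variety: all integral points over finitely generated rings are, up to finitely many, on one line, and
there are finitely many over each ring if and only if all closed subvarieties are of log general type.

Let `K` be an algebraically closed field of characteristic `0`, such as the complex numbers, and let
`k` be a field contained in `K`, such as the rational numbers, with algebraic closure `k'` in `K`.
Let `V` be a closed subset of projective space of dimension `n`, defined over `k'`, of dimension at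
most `m`. For `a` in a finite set `A` let `H_a` be a form of degree `d_a` over `K`, not `0`. The
forms are supposed to satisfy at most `s` independent algebraic conditions over `k`: the ratios of
the coefficients of the `H_a` generate a field of transcendence degree at least `N - s` over `k`,
where `N` is the sum of the `binom (d_a + n) n - 1`, the dimension of the space of parameters. The
conditions can be of any kind, and nothing is supposed on the singularities. For a subset `C` of `A`
let `X'` be the part of `V` where all `H_a`, `a ∈ C`, vanish, let `D` be the union of the hypersurfaces
`H_b = 0`, `b ∉ C`, and let `U` be the complement of `D` in `X'`. (All quasi-projective varieties can be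
described in this way, with some `m` and `s`.)

Let `q` be `0`, or such that `|A| + 2 q ≤ s`, `|A| + 4 q ≤ s + 3` and `s ≤ N`, and suppose that
`2 m + s + 2 ≤ ∑ d_a + |C| + q`. A bad line is a line in `X'`, not contained in `D`, that meets `D` in
at most two points; these are the lines in `X'` whose part in `U` is not of log general type. Then:

(1) the following are equivalent: `U` has only finitely many points over every finitely generated
subring of `K` (over the integers); all closed subvarieties of `U` of positive dimension are of log
general type; there is no bad line; all nonconstant maps from smooth projective curves of genus `g` to
`X'`, with image not in `D`, have degree at most `2 g - 2 +` the number of the points over `D`; all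
morphisms from the multiplicative group to `U` are constant;

(2) there is at most one bad line, it has infinitely many points over some finitely generated rings,
and only finitely many points of `U` over each finitely generated ring are outside of it;

(3) a closed subvariety of `U` of positive dimension is of log general type if and only if it is not
the part of the bad line in `U`;

(4) there is a line, the same for all finite sets `T`, such that only finitely many points of `U` over
the algebra generated by `T` over `k'` are outside of it; if `q = 0`, then `U` has only finitely many
points over this algebra, and there is no bad line.

So the conjecture is true for `U` and for all its closed subvarieties of positive dimension, with the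
bad line as the exceptional set. For `q = 0` there are no exceptions, by (4).

For example, let `V` be the whole space and `C` be empty: `U` is the complement of a hypersurface of
degree `d` which satisfies `s` conditions (with `|A| = 1`). The condition is `2 n + s + 2 ≤ d + q`, and
for the largest possible `q` the number `s` can be roughly `4 (d - 2 n) / 3`.

The points over the ring `R` of the complement of `H_b = 0` in projective space are the points for
which all quotients of monomials of degree `d_b` by `H_b` are in `R`. Every arithmetic scheme `B` has
an open subscheme which is the spectrum of a finitely generated domain `R`, and for a model of `U`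
over `B` the sections over this subscheme are points over some larger finitely generated domain, as
here, so that (1) is the conjecture for `U`, for all arithmetic schemes `B` with function field
embedded into `K`.

In (4) one line that is not bad is possible: the pair that consists of a line and of its intersection
with `D` can be isomorphic to one over `k'`, and then there are infinitely many points over `k'`.

`ringPoints V H d C T`: the points of `U` over the ring generated by `T`. `intPoints k V H d C T`: the
points of `X'` over the field generated by `T` over `k'` for which `x_i ^ d_b / H_b (x)` is in the
algebra generated by `T` over `k'`, for all `i` and all `b ∉ C`. `BadLine V H C p r`: the span of `p` and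
`r` is a bad line; `OnSpan p r P`: the point `P` is in the span. A subvariety is given by its function
field `L`, its dimension `w`, and its generic point, with homogeneous coordinates `x_i` in `L`.
-/

set_option autoImplicit false

namespace Pool.Agent.Results.MP_26d9ad_nt.SpecialPairs

open MvPolynomial FF Pool.Agent.W602.GT Pool.Agent.TH145.MG
open Pool.Agent.Run7.h621.LG Pool.Agent.Run7.h621.LA Pool.Agent.Run7.h621.LI

theorem result {k K : Type} [Field k] [Field K] [IsAlgClosed K] [CharZero K] [Algebra k K]
    {n m s q : ℕ}
    -- a closed subset of projective space, of dimension at most `m`
    (V : Set (MvPolynomial (Fin (n + 1)) (algebraicClosure k K)))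
    (hVh : ∀ f ∈ V, ∃ e, f.IsHomogeneous e) (hV : DimLE (algebraicClosure k K) V m)
    -- forms of degrees `d a` that satisfy at most `s` independent conditions over `k`
    {A : Type} [Fintype A] (d : A → ℕ) (H : A → MvPolynomial (Fin (n + 1)) K)
    (h : ConditionsLE k H d s) (hq : Small n d s q)
    -- the pair
    (C : Finset A) (hnum : 2 * m + s + 2 ≤ ∑ a, d a + C.card + q) :
    -- (1) the equivalence
    [∀ T : Finset K, (ringPoints V H d C T).Finite, AllLogGeneral V H d C, NoBadLine V H C,
      DegreesBounded V H d C, NoGm V H C].TFAE ∧
    -- (2) the bad line
    AtMostOne V H C ∧
    (∀ p r, BadLine V H C p r →
      ∃ T : Finset K, {P ∈ ringPoints V H d C T | OnSpan p r P}.Infinite) ∧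
    (∀ T : Finset K,
      {P ∈ ringPoints V H d C T | ¬ ∃ p r, BadLine V H C p r ∧ OnSpan p r P}.Finite) ∧
    -- (3) closed subvarieties
    (∀ (L : Type) [Field L] [Algebra K L] (w : ℕ) (x : Fin (n + 1) → L), 0 < w →
      Algebra.trdeg K L = w → x ≠ 0 → coords K x = ⊤ → OnPairOf V H C x →
      ((LogGeneralType K L w fun Q => Q ∈ bdry C H d x) ↔
        ¬ ∃ p r, BadLine V H C p r ∧
          ∃ u v : L, ∀ i, x i = u * algebraMap K L (p i) + v * algebraMap K L (r i))) ∧
    -- (4) finitely generated algebras over the algebraic closure of `k`
    (∃ p r : Fin (n + 1) → K,
      ∀ T : Finset K, {P ∈ intPoints k V H d C T | ¬ OnSpan p r P}.Finite) ∧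
    (q = 0 → ∀ T : Finset K, (intPoints k V H d C T).Finite) := by
  have hU : Pool.Agent.Y741.UF K := Pool.Agent.Y741.uf
  obtain ⟨p, r, -, hfin⟩ := points_all hVh hV h hq hnum
  exact ⟨equivalence_ring hU hVh hV h hq hnum, atMostOne hV h hq C (by omega),
    fun p r hb => bad_ring (fun a => (h.1 a).2) hb, ring_finite hU hVh hV h hq hnum,
    fun L _ _ w x hw htr hx0 htop hx => gt_iff hVh hV h hq C (by omega) hw htr hx0 htop hx,
    ⟨p, r, hfin⟩, fun hq0 => points_zero hVh hV h hq hnum hq0⟩

end Pool.Agent.Results.MP_26d9ad_nt.SpecialPairs
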